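import Pool.Agent.Helper805.CHS.Drawn

set_option autoImplicit false

open Set Topology Metric

namespace Pool.Agent.H788Z.K5

noncomputable section

/-- point of the edge `ab` with weight `t` at `a`. -/
def pt (a b : Fin 5) (t : ℝ) : Fin 5 → ℝ := fun i =>
  (if i = a then t else 0) + (if i = b then 1 - t else 0)

lemma pt_cont (a b : Fin 5) : Continuous (pt a b) := by
  refine continuous_pi fun i => ?_
  unfold pt
  split_ifs <;> fun_prop

/-- the closed edge -/
def edge (a b : Fin 5) : Set (Fin 5 → ℝ) := pt a b '' Icc 0 1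

/-- the geometric complete graph on five vertices -/
def G : Set (Fin 5 → ℝ) := {x | ∃ a b, x ∈ edge a b}

lemma edge_compact (a b : Fin 5) : IsCompact (edge a b) := isCompact_Icc.image (pt_cont a b)

lemma edge_conn (a b : Fin 5) : IsConnected (edge a b) :=
  (isConnected_Icc zero_le_one).image _ (pt_cont a b).continuousOn

lemma edge_sub (a b : Fin 5) : edge a b ⊆ G := fun _ h => ⟨a, b, h⟩

/-- the vertices -/
def vx (a : Fin 5) : Fin 5 → ℝ := fun i => if i = a then 1 else 0

lemma vx_left (a b : Fin 5) : vx a ∈ edge a b := by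
  refine ⟨1, ⟨zero_le_one, le_rfl⟩, ?_⟩
  funext i; simp [pt, vx]

lemma vx_right (a b : Fin 5) : vx b ∈ edge a b := by
  refine ⟨0, ⟨le_rfl, zero_le_one⟩, ?_⟩
  funext i; simp [pt, vx]

lemma G_compact : IsCompact G := by
  have : G = ⋃ a, ⋃ b, edge a b := by ext x; simp [G]
  rw [this]
  exact isCompact_iUnion fun a => isCompact_iUnion fun b => edge_compact a b

lemma G_conn : IsConnected G := by
  refine ⟨⟨vx 0, edge_sub 0 0 (vx_left 0 0)⟩, isPreconnected_of_forall (vx 0) ?_⟩
  rintro y ⟨a, b, h⟩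
  refine ⟨edge 0 a ∪ edge a b, union_subset (edge_sub _ _) (edge_sub _ _),
    Or.inl (vx_left 0 a), Or.inr h, ?_⟩
  exact IsPreconnected.union (vx a) (vx_right 0 a) (vx_left a b) (edge_conn _ _).2
    (edge_conn _ _).2

instance : CompactSpace G := isCompact_iff_compactSpace.mp G_compact
instance : ConnectedSpace G := isConnected_iff_connectedSpace.mp G_conn
instance : Nontrivial G := ⟨⟨⟨vx 0, edge_sub 0 0 (vx_left 0 0)⟩, ⟨vx 1, edge_sub 1 1 (vx_left 1 1)⟩,
  fun h => by
    have := congrFun (congrArg Subtype.val h) 0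
    simp [vx] at this⟩⟩

instance : LocallyConnectedSpace G := by
  let F : (Fin 5 × Fin 5) × unitInterval → G := fun z =>
    ⟨pt z.1.1 z.1.2 z.2, z.1.1, z.1.2, z.2, z.2.2, rfl⟩
  have hF : Continuous F := by
    refine Continuous.subtype_mk ?_ _
    refine continuous_prod_of_discrete_left.mpr fun z => ?_
    exact (pt_cont z.1 z.2).comp continuous_subtype_val
  have hs : Function.Surjective F := by
    rintro ⟨x, a, b, t, ht, rfl⟩
    exact ⟨((a, b), ⟨t, ht⟩), rfl⟩
  have : LocallyPathConnectedSpace unitInterval :=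
    (convex_Icc (0 : ℝ) 1).locallyPathConnectedSpace
  exact (hF.isClosedMap.isQuotientMap hF hs).isCoinducing.locallyConnectedSpace

lemma disj {a b c d : Fin 5} (h1 : a ≠ c) (h2 : a ≠ d) (h3 : b ≠ c) (h4 : b ≠ d) :
    Disjoint (edge a b) (edge c d) := by
  rw [Set.disjoint_left]
  rintro x ⟨t, _, rfl⟩ ⟨s, _, hs⟩
  have e1 := congrFun hs a
  have e2 := congrFun hs b
  by_cases hab : a = b
  · subst hab
    simp [pt, h1, h2] at e1
  · have hba : b ≠ a := fun h => hab h.symm
    simp [pt, h1, h2, h3, h4, hab, hba] at e1 e2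
    linarith

/-- description of the points of `G` relative to a coordinate `a`. -/
lemma G_cases {x : Fin 5 → ℝ} (hx : x ∈ G) (a : Fin 5) :
    (∃ b, b ≠ a ∧ x a ∈ Icc (0 : ℝ) 1 ∧ x = pt a b (x a)) ∨
      (x a = 0 ∧ (∀ i, 0 ≤ x i) ∧ ∃ b, b ≠ a ∧ 0 < x b) := by
  obtain ⟨c, d, t, ht, rfl⟩ := hx
  have hnn : ∀ i, 0 ≤ pt c d t i := by
    intro i; unfold pt; have := ht.1; have := ht.2; split_ifs <;> linarith
  by_cases hc : c = a
  · subst hc
    by_cases hd : d = c
    · subst hd
      obtain ⟨b, hb⟩ := exists_ne d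
      left
      refine ⟨b, hb, by simp [pt], ?_⟩
      funext i
      simp only [pt]
      split_ifs <;> simp_all
    · left
      have hd' : c ≠ d := fun h => hd h.symm
      have : pt c d t c = t := by simp [pt, hd']
      exact ⟨d, hd, by rw [this]; exact ht, by rw [this]⟩
  · by_cases hd : d = a
    · subst hd
      left
      have hc' : d ≠ c := fun h => hc h.symm
      have : pt c d t d = 1 - t := by simp [pt, hc']
      refine ⟨c, hc, by rw [this]; exact ⟨by linarith [ht.2], by linarith [ht.1]⟩, ?_⟩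
      rw [this]
      funext i
      simp only [pt]
      split_ifs <;> simp_all
    · right
      have hc' : a ≠ c := fun h => hc h.symm
      have hd' : a ≠ d := fun h => hd h.symm
      refine ⟨by simp [pt, hc', hd'], hnn, ?_⟩
      rcases eq_or_lt_of_le ht.1 with h | h
      · refine ⟨d, hd, ?_⟩
        subst h
        simp [pt]
      · refine ⟨c, hc, ?_⟩
        have := ht.2
        simp only [pt, if_true]
        split_ifs <;> linarith

lemma regular_aux (L : Set G) (hL : IsConnected L) (p q : G) (hp : p ∈ L) (hq : q ∈ L)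
    (a : Fin 5) (hlt : p.1 a < q.1 a) : ∃ U : Set G, IsOpen U ∧ U.Nonempty ∧ U ⊆ L := by
  have hp0 : 0 ≤ p.1 a := by
    rcases G_cases p.2 a with ⟨b, _, h, _⟩ | ⟨h, _⟩
    · exact h.1
    · exact h.ge
  have hq1 : q.1 a ≤ 1 := by
    rcases G_cases q.2 a with ⟨b, _, h, _⟩ | ⟨h, _⟩
    · exact h.2
    · rw [h]; exact zero_le_one
  by_contra hcon
  have key : ∀ b : Fin 5, ∃ t : ℝ, p.1 a < t ∧ t < q.1 a ∧
      (b ≠ a → ∀ y ∈ L, y.1 ≠ pt a b t) := by
    intro b
    by_cases hb : b = a
    · exact ⟨(p.1 a + q.1 a) / 2, by linarith, by linarith, fun h => absurd hb h⟩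
    by_contra hno
    apply hcon
    have hab : a ≠ b := fun h => hb h.symm
    refine ⟨{y | p.1 a < y.1 a ∧ y.1 a < q.1 a ∧ 0 < y.1 b}, ?_, ?_, ?_⟩
    · have c1 : Continuous fun y : G => y.1 a := (continuous_apply a).comp continuous_subtype_val
      have c2 : Continuous fun y : G => y.1 b := (continuous_apply b).comp continuous_subtype_val
      exact (isOpen_lt continuous_const c1).inter ((isOpen_lt c1 continuous_const).inter
        (isOpen_lt continuous_const c2))
    · refine ⟨⟨pt a b ((p.1 a + q.1 a) / 2), a, b, _, ⟨by linarith, by linarith⟩, rfl⟩, ?_⟩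
      simp only [mem_setOf_eq, pt, if_true, hab, hb, if_false]
      refine ⟨by linarith, by linarith, by linarith⟩
    · rintro y ⟨h1, h2, h3⟩
      by_contra hy
      apply hno
      refine ⟨y.1 a, h1, h2, fun _ z hz he => hy ?_⟩
      rcases G_cases y.2 a with ⟨c, hc, _, hyc⟩ | ⟨h, _⟩
      · have hcb : b = c := by
          by_contra hbc
          rw [hyc] at h3
          simp [pt, hb, hbc] at h3
        subst hcb
        have : z = y := Subtype.ext (he.trans hyc.symm)
        exact this ▸ hz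
      · linarith
  choose t ht1 ht2 ht3 using key
  have ht0 : ∀ b, 0 < t b := fun b => lt_of_le_of_lt hp0 (ht1 b)
  have ht4 : ∀ b, 0 < 1 - t b := fun b => by linarith [ht2 b]
  let ψ : G → ℝ := fun y => y.1 a - ∑ b ∈ Finset.univ.erase a, t b / (1 - t b) * y.1 b
  have hψ : Continuous ψ := by
    refine ((continuous_apply a).comp continuous_subtype_val).sub
      (continuous_finsetSum _ fun b _ => continuous_const.mul
        ((continuous_apply b).comp continuous_subtype_val))
  have hval : ∀ y : G, (∃ b, b ≠ a ∧ y.1 = pt a b (y.1 a) ∧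
      ψ y * (1 - t b) = y.1 a - t b) ∨ (y.1 a = 0 ∧ ψ y < 0) := by
    intro y
    rcases G_cases y.2 a with ⟨c, hc, _, hyc⟩ | ⟨h, hnn, c, hc, hpos⟩
    · left
      refine ⟨c, hc, hyc, ?_⟩
      have : ∑ b ∈ Finset.univ.erase a, t b / (1 - t b) * y.1 b
          = t c / (1 - t c) * (1 - y.1 a) := by
        rw [Finset.sum_eq_single c]
        · congr 1
          rw [hyc]; simp [pt, hc, hc.symm]
        · intro b hb hbc
          rw [hyc]
          simp [pt, hbc, (Finset.mem_erase.mp hb).1]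
        · intro h; exact absurd (Finset.mem_erase.mpr ⟨hc, Finset.mem_univ _⟩) h
      simp only [ψ]
      rw [this]
      have := (ht4 c).ne'
      field_simp
      ring
    · right
      refine ⟨h, ?_⟩
      simp only [ψ]
      rw [h, zero_sub, neg_lt_zero]
      refine Finset.sum_pos' (fun b _ => mul_nonneg (div_pos (ht0 b) (ht4 b)).le (hnn b))
        ⟨c, Finset.mem_erase.mpr ⟨hc, Finset.mem_univ _⟩,
          mul_pos (div_pos (ht0 c) (ht4 c)) hpos⟩
  have hψp : ψ p ≤ 0 := by
    rcases hval p with ⟨b, _, _, h⟩ | ⟨_, h⟩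
    · by_contra hh
      have := mul_pos (not_le.mp hh) (ht4 b)
      linarith [ht1 b]
    · exact h.le
  have hψq : 0 ≤ ψ q := by
    rcases hval q with ⟨b, _, _, h⟩ | ⟨h, _⟩
    · by_contra hh
      have := mul_neg_of_neg_of_pos (not_le.mp hh) (ht4 b)
      linarith [ht2 b]
    · linarith
  obtain ⟨y, hy, hy0⟩ := hL.2.intermediate_value hp hq hψ.continuousOn ⟨hψp, hψq⟩
  rcases hval y with ⟨b, hb, h1, h2⟩ | ⟨_, h⟩
  · rw [hy0, zero_mul] at h2
    have : y.1 a = t b := by linarith
    exact ht3 b hb y hy (by rw [← this]; exact h1)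
  · linarith

/-- `G` is completely regular. -/
theorem regular (L : Set G) (hL : IsConnected L) (hn : L.Nontrivial) :
    ∃ U : Set G, IsOpen U ∧ U.Nonempty ∧ U ⊆ L := by
  obtain ⟨p, hp, q, hq, hne⟩ := hn
  have : ∃ a, p.1 a ≠ q.1 a := by
    by_contra h
    push Not at h
    exact hne (Subtype.ext (funext h))
  obtain ⟨a, ha⟩ := this
  rcases lt_or_gt_of_ne ha with h | h
  · exact regular_aux L hL p q hp hq a h
  · exact regular_aux L hL q p hq hp a h

lemma thick_conn {s : Set ℂ} (hs : IsConnected s) {δ : ℝ} (hδ : 0 < δ) :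
    IsPathConnected (thickening δ s) := by
  rw [← isOpen_thickening.isConnected_iff_isPathConnected]
  obtain ⟨x, hx⟩ := hs.1
  refine ⟨⟨x, self_subset_thickening hδ s hx⟩, isPreconnected_of_forall x ?_⟩
  intro y hy
  obtain ⟨z, hz, hd⟩ := mem_thickening_iff.mp hy
  refine ⟨s ∪ ball z δ, union_subset (self_subset_thickening hδ s) ?_, Or.inl hx,
    Or.inr hd, ?_⟩
  · intro w hw
    exact mem_thickening_iff.mpr ⟨z, hz, hw⟩
  · exact IsPreconnected.union z hz (mem_ball_self hδ) hs.2 (convex_ball z δ).isPreconnected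

/-- five plane points cannot be joined by continua, disjoint for disjoint pairs. -/
theorem k5_continua (p : Fin 5 → ℂ) (S : Fin 5 → Fin 5 → Set ℂ)
    (hc : ∀ a b, IsCompact (S a b)) (hS : ∀ a b, IsConnected (S a b))
    (h1 : ∀ a b, p a ∈ S a b) (h2 : ∀ a b, p b ∈ S a b)
    (hdis : ∀ a b c d, a ≠ c → a ≠ d → b ≠ c → b ≠ d → Disjoint (S a b) (S c d)) : False := by
  have key : ∀ z : Fin 5 × Fin 5 × Fin 5 × Fin 5, ∃ δ : ℝ, 0 < δ ∧
      (z.1 ≠ z.2.2.1 → z.1 ≠ z.2.2.2 → z.2.1 ≠ z.2.2.1 → z.2.1 ≠ z.2.2.2 →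
        Disjoint (thickening δ (S z.1 z.2.1)) (thickening δ (S z.2.2.1 z.2.2.2))) := by
    rintro ⟨a, b, c, d⟩
    by_cases h : a ≠ c ∧ a ≠ d ∧ b ≠ c ∧ b ≠ d
    · obtain ⟨δ, hδ, hh⟩ := (hdis a b c d h.1 h.2.1 h.2.2.1 h.2.2.2).exists_thickenings
        (hc a b) (hc c d).isClosed
      exact ⟨δ, hδ, fun _ _ _ _ => hh⟩
    · exact ⟨1, one_pos, fun e1 e2 e3 e4 => absurd ⟨e1, e2, e3, e4⟩ h⟩
  choose δ hδ hk using key
  obtain ⟨z0, -, hz0⟩ := Finset.exists_min_image Finset.univ δ Finset.univ_nonempty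
  refine Pool.Agent.Helper805.CHS.VK.k5_joined p (fun a b => thickening (δ z0) (S a b)) ?_ ?_
  · intro a b _
    exact (thick_conn (hS a b) (hδ z0)).joinedIn _ (self_subset_thickening (hδ z0) _ (h1 a b)) _
      (self_subset_thickening (hδ z0) _ (h2 a b))
  · intro a b c d _ _ e1 e2 e3 e4
    exact (hk (a, b, c, d) e1 e2 e3 e4).mono
      (thickening_mono (hz0 _ (Finset.mem_univ _)) _) (thickening_mono (hz0 _ (Finset.mem_univ _)) _)

/-- `G` is not a monotone image of a compact plane set. -/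
theorem not_monotone_image (S : Set (EuclideanSpace ℝ (Fin 2))) (f : S → G) (hS : IsCompact S)
    (hf : Continuous f) (hs : Function.Surjective f)
    (hfib : ∀ y : G, IsConnected (Subtype.val '' (f ⁻¹' {y}))) : False := by
  have : CompactSpace S := isCompact_iff_compactSpace.mp hS
  have hq : IsQuotientMap f := hf.isClosedMap.isQuotientMap hf hs
  have hfib' : ∀ y : G, IsConnected (f ⁻¹' {y}) := fun y =>
    ⟨(hs y).imp fun _ h => h, IsInducing.subtypeVal.isPreconnected_image.mp (hfib y).2⟩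
  let e : EuclideanSpace ℝ (Fin 2) ≃ₜ ℂ :=
    Complex.orthonormalBasisOneI.repr.symm.toHomeomorph
  let g : S → ℂ := fun x => e x.1
  have hg : Continuous g := e.continuous.comp continuous_subtype_val
  have hgi : Function.Injective g := e.injective.comp Subtype.val_injective
  let E : Fin 5 → Fin 5 → Set G := fun a b => Subtype.val ⁻¹' edge a b
  have hEc : ∀ a b, IsClosed (E a b) := fun a b =>
    (edge_compact a b).isClosed.preimage continuous_subtype_val
  have hEn : ∀ a b, IsConnected (E a b) := fun a b => by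
    refine ⟨⟨⟨vx a, edge_sub a b (vx_left a b)⟩, vx_left a b⟩, ?_⟩
    rw [← IsInducing.subtypeVal.isPreconnected_image, Subtype.image_preimage_coe,
      inter_eq_right.mpr (edge_sub a b)]
    exact (edge_conn a b).2
  have hv : ∀ a, ∃ x : S, (f x).1 = vx a := fun a => by
    obtain ⟨x, hx⟩ := hs ⟨vx a, edge_sub a a (vx_left a a)⟩
    exact ⟨x, by rw [hx]⟩
  choose x hx using hv
  refine k5_continua (fun a => g (x a)) (fun a b => g '' (f ⁻¹' E a b)) ?_ ?_ ?_ ?_ ?_
  · intro a b
    exact ((hEc a b).preimage hf).isCompact.image hg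
  · intro a b
    exact (hq.isCoinducing.isConnected_preimage_of_isClosed hfib' (hEc a b) (hEn a b)).image _
      hg.continuousOn
  · intro a b
    refine ⟨x a, ?_, rfl⟩
    show (f (x a)).1 ∈ edge a b
    rw [hx]; exact vx_left a b
  · intro a b
    refine ⟨x b, ?_, rfl⟩
    show (f (x b)).1 ∈ edge a b
    rw [hx]; exact vx_right a b
  · intro a b c d e1 e2 e3 e4
    rw [Set.disjoint_image_iff hgi]
    exact ((disj e1 e2 e3 e4).preimage _).preimage _

end

end Pool.Agent.H788Z.K5
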